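import Pool.Agent.Q211.Pair.Asm

open Finset Filter
open scoped Topology

namespace Pool.Agent.Results.MP_1dfc85_pr.Threshold

open Pool.Agent.Q211.Pair

/-- The pairs `(S, π)`: a set `S` of vertices together with a bijection `π : S → [m]`
(so that `S` has `m` elements). -/
abbrev Lab (n m : ℕ) := Σ S : Finset (Fin n), ({i // i ∈ S} ≃ Fin m)

/-- The inverse of `π`, as an injection `[m] → [n]` with range `S`. -/
def inv {n m : ℕ} (s : Lab n m) : Fin m ↪ Fin n :=
  s.2.symm.toEmbedding.trans (Function.Embedding.subtype _)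

/-- The graph `H_π` on `[m]`: `a, b` are adjacent iff `π⁻¹ a, π⁻¹ b` are adjacent in `G`. -/
def Hpi {n m : ℕ} (G : Gr (Fin n)) (s : Lab n m) : Gr (Fin m) := pull (inv s) G

/-- The probability that the estimator `A` outputs exactly `S`, where `G` is an Erdős–Rényi graph
with edge probability `p` and `(S, π)` is uniform and independent of `G`. -/
noncomputable def successProb {n m : ℕ} (p : ℝ) (A : Est n m) : ℝ :=
  Ex p (fun G : Gr (Fin n) => (∑ s : Lab n m, A.pr G (Hpi G s) s.1) /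
    (Fintype.card (Lab n m) : ℝ))

/-- The binary entropy. -/
noncomputable def ent (p : ℝ) : ℝ := -p * Real.log p - (1 - p) * Real.log (1 - p)

lemma ent_eq (p : ℝ) : ent p = Real.binEntropy p := by
  rw [ent, Real.binEntropy, Real.log_inv, Real.log_inv]
  ring

lemma map_inv {n m : ℕ} (s : Lab n m) : univ.map (inv s) = s.1 := by
  ext i
  rw [Finset.mem_map]
  constructor
  · rintro ⟨k, _, hk⟩
    rw [← hk]
    exact (s.2.symm k).2
  · intro hi
    refine ⟨s.2 ⟨i, hi⟩, Finset.mem_univ _, ?_⟩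
    show ((s.2.symm (s.2 ⟨i, hi⟩)) : Fin n) = i
    rw [Equiv.symm_apply_apply]

lemma inv_bij {n m : ℕ} : Function.Bijective (inv : Lab n m → (Fin m ↪ Fin n)) := by
  constructor
  · rintro ⟨S, π⟩ ⟨T, ρ⟩ h
    have h1 : S = T := by
      have h2 := map_inv (⟨S, π⟩ : Lab n m)
      have h3 := map_inv (⟨T, ρ⟩ : Lab n m)
      rw [h] at h2
      exact h2.symm.trans h3
    subst h1
    have h4 : π.symm = ρ.symm := by
      ext k
      exact congrArg (fun f : Fin m ↪ Fin n => ((f k : Fin n) : ℕ)) h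
    have h5 : π = ρ := by
      have := congrArg Equiv.symm h4
      simpa using this
    rw [h5]
  · intro f
    have hb : Function.Bijective (fun k : Fin m =>
        (⟨f k, Finset.mem_map_of_mem f (Finset.mem_univ k)⟩ : {i // i ∈ univ.map f})) := by
      constructor
      · intro a b hab
        exact f.injective (congrArg Subtype.val hab)
      · rintro ⟨i, hi⟩
        obtain ⟨k, _, hk⟩ := Finset.mem_map.1 hi
        exact ⟨k, Subtype.ext hk⟩
    refine ⟨⟨univ.map f, (Equiv.ofBijective _ hb).symm⟩, ?_⟩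
    ext k
    rfl

lemma successProb_eq {n m : ℕ} (p : ℝ) (A : Est n m) : successProb p A = success p A := by
  unfold successProb success
  congr 1
  funext G
  congr 1
  · rw [← (Equiv.ofBijective _ (inv_bij (n := n) (m := m))).sum_comp]
    refine Finset.sum_congr rfl fun s _ => ?_
    show A.pr G (Hpi G s) s.1 = A.pr G (pull (inv s) G) (univ.map (inv s))
    rw [map_inv]
    rfl
  · exact_mod_cast Fintype.card_congr (Equiv.ofBijective _ (inv_bij (n := n) (m := m)))

/-- The information-theoretic impossibility side of the threshold. -/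
theorem result :
    (∃ N0 : ℕ, ∀ n m : ℕ, N0 ≤ n → 1 ≤ m → m + 1 ≤ n → ∀ p : ℝ, 0 < p → p < 1 →
      (m : ℝ) / 2 * ent p - Real.log n ≤ -9 → ∀ A : Est n m, successProb p A ≤ 199 / 200) ∧
    (∀ (m : ℕ → ℕ) (p : ℕ → ℝ), (∀ᶠ n in atTop, 1 ≤ m n ∧ m n + 1 ≤ n) →
      (∀ᶠ n in atTop, 0 < p n ∧ p n < 1) →
      Tendsto (fun n : ℕ => (m n : ℝ) / 2 * ent (p n) - Real.log n) atTop atBot →
      ∀ A : ∀ n, Est n (m n),
        (∀ᶠ n in atTop, successProb (p n) (A n) ≤ 199 / 200) ∧
        ¬ Tendsto (fun n => successProb (p n) (A n)) atTop (𝓝 1)) := by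
  have h1 : ∃ N0 : ℕ, ∀ n m : ℕ, N0 ≤ n → 1 ≤ m → m + 1 ≤ n → ∀ p : ℝ, 0 < p → p < 1 →
      (m : ℝ) / 2 * ent p - Real.log n ≤ -9 → ∀ A : Est n m, successProb p A ≤ 199 / 200 := by
    obtain ⟨N0, h⟩ := both_halves
    refine ⟨N0, fun n m hn hm hmn p h0 h1 hK A => ?_⟩
    rw [successProb_eq]
    rw [ent_eq] at hK
    exact h n m hn hm (by omega) p h0 h1 (by linarith) A
  refine ⟨h1, fun m p hm hp hlim A => ?_⟩
  obtain ⟨N0, h⟩ := h1
  have h2 : ∀ᶠ n in atTop, successProb (p n) (A n) ≤ 199 / 200 := by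
    filter_upwards [hm, hp, hlim.eventually (eventually_le_atBot (-9)), eventually_ge_atTop N0]
      with n hn1 hn2 hn3 hn4
    exact h n (m n) hn4 hn1.1 hn1.2 (p n) hn2.1 hn2.2 hn3 (A n)
  refine ⟨h2, fun hc => ?_⟩
  have h3 : (1 : ℝ) ≤ 199 / 200 := le_of_tendsto hc h2
  norm_num at h3

end Pool.Agent.Results.MP_1dfc85_pr.Threshold
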